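import Pool.Agent.J4.H1.GA.Base

/-!
# The Farrell-Jones class and extensions whose kernels are Artin groups of any rank

Projects AX and GA of helper1 with helpers 7 (EQV), 10 (CVX), 30 (PMB, PMC, PRES, ACT), 54 (HEL), 66 (PATH), 87
(PMA, SD); they use project AR of helper1 with helpers 7, 20, 25, 30, 40, 42, 43, 55, 81.

`Sh M p` is the group with generators `s_b` (`b : B`, any set), the braid relations of the Coxeter matrix `M`
(the label `0` stands for infinity) and the relations `s_b ^ p_b = 1`; for `p = 0` it is the Artin group of
`M`, for `p = 2` the Coxeter group. `Adm M p`: the exponents are even and constant along the odd labels.

Theorem. Let `C` be a Farrell-Jones class which contains the finitely generated Coxeter groups. Let `N` be a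
normal subgroup of a group `G` which is isomorphic to `Sh M p`, and suppose that each element `g` of `G` acts on
each finite set `F` of generators as a map `σ` from `F` to the generators which preserves the labels and the
exponents, followed by an inner automorphism of `N` (`LAct`; `σ` and the inner automorphism depend on `F`, and
`σ` need not extend to an automorphism of the diagram). If `G / N` is in `C`, then `G` is in `C` if and only if
`Sh M p` is in `C`.

For instance `G` may be the semidirect product of an Artin group of infinite rank and a group which acts by
automorphisms of the diagram. For Coxeter groups (`p = 2`) and automorphisms of the whole diagram this is the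
theorem `CoxeterKernels` (MP_63c928_gt) of the starting library, which is proved with an extension theorem for
finite labelled graphs. For Artin groups one needs in addition that the larger diagram has no new sets of
generators without infinite labels, since their Artin groups need not be known to be in `C`.

Proof. On a finite set of generators a global automorphism `σ` of the diagram is realized by an automorphism of
finite order of a periodic diagram: `ℤ` is replaced by `ZMod n` in the infinite orbits of `σ`, and the labels
between far away generators by infinity. A set of generators without infinite labels of the periodic diagram
lifts to the given diagram. So the group of the periodic diagram is in `C` by the reduction theorem of project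
AR (`Pool.Agent.J4.H1.AR.Fin.all`), and the criterion `Q30.FJ.crit` of the starting library gives the theorem for
global automorphisms. For a partial map `σ` on `F` this is applied to the HNN extension of `Sh M p` with a stable
letter `t`, `t s_b t⁻¹ = s_(σ b)` for `b ∈ F`, which is the semidirect product of the group of an unfolded diagram
and `ℤ` (project GA). The HNN extension is in `C` and realizes `g` on `F`, and the criterion applies again.
-/

set_option autoImplicit false

namespace Pool.Agent.Results.MP_1a2884_al.ArtinExtensions

open Pool.Agent.K7.H87.FJ6
open Pool.Agent.Y110.FJ (ClosedE)
open Pool.Agent.J4.H1.GA.Base (LAct)

theorem result (C : ∀ (G : Type) [Group G], Prop) (hC : ClosedE C)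
    (hW : ∀ (B : Type) [Finite B] (M : CoxeterMatrix B), C M.Group) (B : Type)
    (M : CoxeterMatrix B) (p : B → ℕ) (hp : Adm M p) (G : Type) [Group G] (N : Subgroup G)
    [N.Normal] (e : Sh M p ≃* ↥N) (hact : ∀ g : G, LAct e g) (hQ : C (G ⧸ N)) :
    C G ↔ C (Sh M p) :=
  ⟨fun h => hC.base.of_injective _ _ (N.subtype.comp e.toMonoidHom)
      (N.subtype_injective.comp e.injective) h,
    fun h => Pool.Agent.J4.H1.GA.Base.ext hC hW hp h N hQ e hact⟩

end Pool.Agent.Results.MP_1a2884_al.ArtinExtensions
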