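import Pool.Agent.J4.H1.Contr

set_option autoImplicit false

/-! Idempotent matrices over group rings of torsion-free groups which are contractive for weighted
operator norms. -/

namespace Pool.Agent.Results.MP_1a2884_al.ContractiveIdempotents

open MonoidAlgebra

/-- For every `c > 1` there are positive weights `p` such that the matrix of the `ℓ¹`-norms of the
entries of `E` maps `p` to a vector that is at most `c * p`. -/
def SubContractive {G 𝔸 ι : Type*} [Group G] [NormedRing 𝔸] [Fintype ι]
    (E : Matrix ι ι (MonoidAlgebra 𝔸 G)) : Prop :=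
  ∀ c : ℝ, 1 < c → ∃ p : ι → ℝ, (∀ i, 0 < p i) ∧
    ∀ i, ∑ j, (∑ g ∈ (E i j).coeff.support, ‖(E i j).coeff g‖) * p j ≤ c * p i

/-- Let `𝔸` be a normed ring (submultiplicative norm, not assumed complete), `G` a torsion-free group
and `E` an idempotent matrix over the algebraic group ring `𝔸G`. Suppose that `E` or `1 - E` has
weighted operator norms, on `ℓ¹` sums, with infimum at most `1`. Then `E` is conjugate over the
algebraic group ring `𝔸G` to the matrix over `𝔸` of the sums of coefficients of its entries. -/
theorem result {G : Type*} [Group G] (htf : ∀ g : G, IsOfFinOrder g → g = 1)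
    {𝔸 : Type*} [NormedRing 𝔸]
    {ι : Type*} [Fintype ι] [DecidableEq ι]
    (E : Matrix ι ι (MonoidAlgebra 𝔸 G)) (hE : E * E = E)
    (hM : SubContractive E ∨ SubContractive (1 - E)) :
    ∃ X : (Matrix ι ι (MonoidAlgebra 𝔸 G))ˣ,
      E = X.val * (Matrix.of fun i j =>
        single (1 : G) (∑ g ∈ (E i j).coeff.support, (E i j).coeff g)) * X⁻¹.val := by
  have h0 : (Matrix.of fun i j =>
        single (1 : G) (∑ g ∈ (E i j).coeff.support, (E i j).coeff g)) =
      Pool.Agent.J4.H1.Balanced.augMat E := by
    ext1 i j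
    rw [Pool.Agent.J4.H1.Balanced.augMat_apply, Pool.Agent.J4.H1.Balanced.aug_eq_sum,
      Matrix.of_apply]
  rw [h0]
  rcases hM with hM | hM
  · exact Pool.Agent.J4.H1.Balanced.contr_conj' htf E hE hM
  · have h1 : (1 - E) * (1 - E) = 1 - E := by
      have : (1 - E) * (1 - E) = 1 - E - E + E * E := by noncomm_ring
      rw [this, hE]; abel
    obtain ⟨X, hX⟩ := Pool.Agent.J4.H1.Balanced.contr_conj' htf (1 - E) h1 hM
    refine ⟨X, ?_⟩
    rw [Pool.Agent.J4.H1.Balanced.augMat_one_sub, mul_sub, sub_mul, mul_one, Units.mul_inv] at hX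
    exact sub_right_injective hX

end Pool.Agent.Results.MP_1a2884_al.ContractiveIdempotents
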