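import Pool.Agent.J4.H1.ThreeB
import Pool.Agent.J4.H1.MatIso

set_option autoImplicit false

/-! Idempotent matrices over group rings of torsion-free groups in which at most three group elements
other than the identity occur. -/

namespace Pool.Agent.Results.MP_1a2884_al.FewGroupElements

open Pool.Agent.J4.H1.Three Pool.Agent.J4.H1.MatIso

/-- Let `R` be any ring, `G` a torsion-free group and `E` an idempotent matrix over `RG` such that at
most three group elements other than `1` occur in the entries of `E`. Then `E` is conjugate over `RG`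
to an idempotent matrix `F` over `RP`, where `P` is a subgroup of `G` generated by two elements `g`
and `h` with `g h g⁻¹ = h` or `g h g⁻¹ = h⁻¹`. -/
theorem result {R G ι : Type*} [Ring R] [Group G] [Fintype ι] [DecidableEq ι]
    (htf : ∀ g : G, IsOfFinOrder g → g = 1)
    (E : Matrix ι ι (MonoidAlgebra R G)) (hE : E * E = E)
    (T : Finset G) (hT : T.card ≤ 3)
    (hS : ∀ i j g, (E i j).coeff g ≠ 0 → g = 1 ∨ g ∈ T) :
    ∃ (X : (Matrix ι ι (MonoidAlgebra R G))ˣ) (F : Matrix ι ι (MonoidAlgebra R G)) (g h : G),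
      (g * h * g⁻¹ = h ∨ g * h * g⁻¹ = h⁻¹) ∧ E = X.val * F * X⁻¹.val ∧ F * F = F ∧
        ∀ i j k, (F i j).coeff k ≠ 0 → k ∈ Subgroup.closure {g, h} := by
  classical
  obtain ⟨e, rfl⟩ := Φ_surj E
  have he : e * e = e := by
    apply Φ_inj
    rw [map_mul]; exact hE
  obtain ⟨X, f, g, h, hr, hX, hf⟩ := good_main htf e he T hT (by
    intro k hk
    by_contra hcon
    apply hk
    ext i j
    by_contra h0
    rw [← Φ_coeff] at h0
    exact hcon (hS i j k h0))
  refine ⟨Units.map (Φ R G ι).toMonoidHom X, Φ R G ι f, g, h, hr, ?_, ?_, ?_⟩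
  · rw [hX, map_mul, map_mul]
    rfl
  · rw [← map_mul]
    congr 1
    have h1 : f = (X⁻¹ : (MonoidAlgebra (Matrix ι ι R) G)ˣ) * e * X := by
      rw [hX]
      calc f = ((X⁻¹ : (MonoidAlgebra (Matrix ι ι R) G)ˣ) * X) * f *
          ((X⁻¹ : (MonoidAlgebra (Matrix ι ι R) G)ˣ) * X) := by simp
        _ = _ := by simp only [mul_assoc]
    rw [h1]
    calc (X⁻¹ : (MonoidAlgebra (Matrix ι ι R) G)ˣ) * e * X *
        ((X⁻¹ : (MonoidAlgebra (Matrix ι ι R) G)ˣ) * e * X) =
        (X⁻¹ : (MonoidAlgebra (Matrix ι ι R) G)ˣ) * e *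
          ((X : MonoidAlgebra (Matrix ι ι R) G) *
            (X⁻¹ : (MonoidAlgebra (Matrix ι ι R) G)ˣ)) * (e * X) := by simp only [mul_assoc]
      _ = (X⁻¹ : (MonoidAlgebra (Matrix ι ι R) G)ˣ) * (e * e) * X := by
        rw [Units.mul_inv, mul_one]; simp only [mul_assoc]
      _ = _ := by rw [he]
  · intro i j k hk
    apply hf k
    intro h0
    apply hk
    rw [Φ_coeff, h0]
    rfl

end Pool.Agent.Results.MP_1a2884_al.FewGroupElements
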