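import Pool.Agent.J4.H1.Signed

set_option autoImplicit false

/-! Idempotent matrices over group rings of torsion-free groups, with coefficients in an ordered ring,
whose coefficients off the identity positions have a consistent sign. -/

namespace Pool.Agent.Results.MP_1a2884_al.OneSignedIdempotents

open MonoidAlgebra

/-- Let `R` be a linearly ordered ring (not necessarily commutative) and `G` a torsion-free group. Let
`E` be an idempotent matrix over `RG` and `s` a multiplicative rule of signs (for example constantly
`1`). Suppose that all coefficients of `E` other than those of the group identity in the diagonal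
entries have the sign prescribed by `s` (or zero), or that all of them have the opposite sign. Then `E`
is conjugate over `RG` to the matrix over `R` of the sums of coefficients of its entries. -/
theorem result {G : Type*} [Group G] (htf : ∀ g : G, IsOfFinOrder g → g = 1)
    {R : Type*} [Ring R] [LinearOrder R] [IsStrictOrderedRing R]
    {ι : Type*} [Fintype ι] [DecidableEq ι]
    (E : Matrix ι ι (MonoidAlgebra R G)) (hE : E * E = E)
    (s : ι → ι → G → ℤˣ) (hs : ∀ i j k a b, s i k (a * b) = s i j a * s j k b)
    (hpos : (∀ i j g, ¬ (i = j ∧ g = 1) → 0 ≤ ((s i j g : ℤ) : R) * (E i j).coeff g) ∨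
      (∀ i j g, ¬ (i = j ∧ g = 1) → ((s i j g : ℤ) : R) * (E i j).coeff g ≤ 0)) :
    ∃ X : (Matrix ι ι (MonoidAlgebra R G))ˣ,
      E = X.val * (Matrix.of fun i j =>
        single (1 : G) (∑ g ∈ (E i j).coeff.support, (E i j).coeff g)) * X⁻¹.val := by
  obtain ⟨X, hX⟩ := Pool.Agent.J4.H1.Balanced.signed_conj' htf E hE s hs hpos
  refine ⟨X, hX.trans ?_⟩
  congr 2
  ext1 i j
  rw [Pool.Agent.J4.H1.Balanced.augMat_apply, Pool.Agent.J4.H1.Balanced.aug_eq_sum,
    Matrix.of_apply]

end Pool.Agent.Results.MP_1a2884_al.OneSignedIdempotents
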